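import Pool.Agent.Lib.MP_51fc07_al.GV.Own26

/-!
For every totally sign-skew-symmetric matrix and every seed: c-vectors are sign-coherent, the
g-vectors of a cluster are row sign-coherent and form a basis, the two dualities between C- and
G-matrices hold, and g-vectors change with the initial seed by the piecewise linear rule.
-/

set_option autoImplicit false

namespace Pool.Agent.Results.MP_51fc07_al.SignCoherence

open Pool.Agent.Lib.MP_51fc07_al Pool.Agent.Lib.MP_51fc07_al.GV

theorem result (n : ℕ) (B : Matrix (Fin n) (Fin n) ℤ) (hB : TSSS B) (w : List (Fin n)) :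
    (∀ k, ((∀ j, 0 ≤ cmat B w j k) ∨ (∀ j, cmat B w j k ≤ 0)) ∧ ∃ j, cmat B w j k ≠ 0) ∧
    ∃ G : Matrix (Fin n) (Fin n) ℤ,
      (∀ a g, IsG B (clvar B w a) g ↔ g = fun i => G i a) ∧
      (∀ i, (∀ a, 0 ≤ G i a) ∨ (∀ a, G i a ≤ 0)) ∧
      (G.det = 1 ∨ G.det = -1) ∧
      G.transpose * cmat (-B.transpose) w = 1 ∧
      G.transpose = cmat (muw B w).transpose w.reverse ∧
      ∀ k a g, IsG (mu k B) (clvar (mu k B) (k :: w) a) g →
        g k = -G k a ∧
          ∀ i, i ≠ k → g i = G i a + max (B i k) 0 * G k a - B i k * min (G k a) 0 :=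
  own26 hB w

end Pool.Agent.Results.MP_51fc07_al.SignCoherence
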